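import Pool.Agent.Lib.MP_a5d4dd_co.Small

namespace Pool.Agent.Results.MP_a5d4dd_co.WeakFoulkes

open Pool.Agent.Lib.MP_a5d4dd_co

theorem result : ∀ n m : ℕ, 1 ≤ n → n ≤ m → tnum n m ≤ tnum m n :=
  weak_foulkes

end Pool.Agent.Results.MP_a5d4dd_co.WeakFoulkes
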